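import Pool.Agent.Helper31.Ewald.Deep

/-!
Nill's generalisation of Ewald's conjecture for dilates of smooth polytopes, and for smooth
polytopes in which the origin is far from all facets.
-/

namespace Pool.Agent.Results.MP_5412de_co.Deep

open Helper31.Ewald

/-- Let `P ⊂ ℝⁿ` be a smooth lattice polytope with `0` in its interior and `ω ≥ 1`. If `ω > 1`
suppose that `0` has lattice distance at least `ω (2 ω - 1)` from every supporting lattice
hyperplane of `P`. Then for every `k` with `48 k ω ≥ (n+1)(n+2)(2n+3) + 24` the set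
`ℤⁿ ∩ kP ∩ -kP` contains a basis of `ℤⁿ`. -/
theorem result (n : ℕ) (P : Set (Fin n → ℝ)) (hP : IsSmoothPolytope P)
    (h0 : (0 : Fin n → ℝ) ∈ interior P) (ω : ℕ) (hω : 1 ≤ ω)
    (hdeep : 1 < ω → ∀ u : Fin n → ℤ, u ≠ 0 →
      ∃ x ∈ P, ∑ i, (u i : ℝ) * x i ≤ -((ω : ℝ) * (2 * ω - 1)))
    (k : ℕ) (hk : (n + 1) * (n + 2) * (2 * n + 3) + 24 ≤ 48 * k * ω) :
    ∃ b : Fin n → Fin n → ℤ, IsUnit (Matrix.of b).det ∧
      ∀ i, (∃ x ∈ P, toR (b i) = (k : ℝ) • x) ∧ (∃ x ∈ P, -toR (b i) = (k : ℝ) • x) := by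
  have hk' : cc n ≤ (k : ℝ) * ω := by
    unfold cc
    rw [div_le_iff₀ (by norm_num)]
    have : (((n + 1) * (n + 2) * (2 * n + 3) + 24 : ℕ) : ℝ) ≤ ((48 * k * ω : ℕ) : ℝ) := by
      exact_mod_cast hk
    push_cast at this
    linarith
  have hk0 : (0 : ℝ) < k := by
    rcases Nat.eq_zero_or_pos k with h | h
    · subst h
      simp at hk
    · exact_mod_cast h
  obtain ⟨b, hb, hbx⟩ := deep hP h0 ω hω (deep_hyp hP h0 ω hω hdeep) hk' hk0
  refine ⟨b, hb, fun i => ?_⟩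
  obtain ⟨x, hx, hx', hxi⟩ := hbx i
  exact ⟨⟨x, hx, hxi⟩, ⟨-x, hx', by rw [hxi, smul_neg]⟩⟩

end Pool.Agent.Results.MP_5412de_co.Deep
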