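import Pool.Agent.Helper15.NL.Final

/-!
Nill's generalisation of Ewald's conjecture in dimension three.
-/

namespace Pool.Agent.Results.MP_5412de_co.DimThree

open Helper31.Ewald

/-- Let `P ⊂ ℝ³` be a smooth lattice polytope with `0` in its interior. Then `ℤ³ ∩ P ∩ -P` contains a
basis of `ℤ³`. -/
theorem result (P : Set (Fin 3 → ℝ)) (hP : IsSmoothPolytope P)
    (h0 : (0 : Fin 3 → ℝ) ∈ interior P) :
    ∃ b : Fin 3 → Fin 3 → ℤ, IsUnit (Matrix.of b).det ∧ ∀ i, toR (b i) ∈ P ∧ -toR (b i) ∈ P := by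
  obtain ⟨b, hb, hbP⟩ := Helper15.NL.nill_three hP h0
  exact ⟨b, hb, hbP⟩

end Pool.Agent.Results.MP_5412de_co.DimThree
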