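import Pool.Agent.Helper31.Ewald.Long4

/-!
Nill's generalisation of Ewald's conjecture holds for all smooth lattice polytopes whose edges have
lattice length at least `2 n (n + 1)`.
-/

namespace Pool.Agent.Results.MP_5412de_co.LongEdges

open Helper31.Ewald

/-- Let `n ≥ 2`, let `P ⊂ ℝⁿ` be a smooth lattice polytope all of whose edges have lattice length
at least `L ≥ 2 n (n + 1)`, and let `0` be an interior point of `P`. Then `ℤⁿ ∩ P ∩ -P` contains a
basis of `ℤⁿ`. -/
theorem result (n : ℕ) (hn : 2 ≤ n) (L : ℕ) (hL : 2 * n * (n + 1) ≤ L)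
    (P : Set (Fin n → ℝ)) (hP : IsSmoothLong P L) (h0 : (0 : Fin n → ℝ) ∈ interior P) :
    ∃ b : Fin n → Fin n → ℤ, IsUnit (Matrix.of b).det ∧ ∀ i, toR (b i) ∈ P ∧ -toR (b i) ∈ P := by
  have hL0 : 0 < L := lt_of_lt_of_le (by positivity) hL
  obtain ⟨ι, _, v, e, f, hV⟩ := exists_VD hL0 hP h0
  exact hV.basis2 hL0 (hP.toSmooth hL0).convex hn hL

end Pool.Agent.Results.MP_5412de_co.LongEdges
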