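import Pool.Agent.Helper31.Ewald.Deep

/-!
Nill's generalisation of Ewald's conjecture: the lattice width of the symmetric body `P ∩ -P` of a
smooth lattice polytope `P` with `0` in its interior.
-/

namespace Pool.Agent.Results.MP_5412de_co.Width

open Helper31.Ewald

/-- Let `P ⊂ ℝⁿ` be a smooth lattice polytope with `0` in its interior and `ω ≥ 1`. If `ω > 1`
suppose that `0` has lattice distance at least `ω (2 ω - 1)` from every supporting lattice
hyperplane of `P`. Then for every nonzero integer vector `u` there is a real point `x` with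
`x, -x ∈ P` and `⟨u, x⟩ = ω`: the body `P ∩ -P` has lattice width at least `2 ω`. -/
theorem result (n : ℕ) (P : Set (Fin n → ℝ)) (hP : IsSmoothPolytope P)
    (h0 : (0 : Fin n → ℝ) ∈ interior P) (ω : ℕ) (hω : 1 ≤ ω)
    (hdeep : 1 < ω → ∀ u : Fin n → ℤ, u ≠ 0 →
      ∃ x ∈ P, ∑ i, (u i : ℝ) * x i ≤ -((ω : ℝ) * (2 * ω - 1)))
    (u : Fin n → ℤ) (hu : u ≠ 0) :
    ∃ x : Fin n → ℝ, x ∈ P ∧ -x ∈ P ∧ ∑ i, (u i : ℝ) * x i = ω := by
  obtain ⟨x, hx, hx', hux⟩ := width2 hP h0 ω hω (deep_hyp hP h0 ω hω hdeep) hu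
  exact ⟨x, hx, hx', hux⟩

end Pool.Agent.Results.MP_5412de_co.Width
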